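import Mathlib
import Pool.Agent.H594.ML.Ell4
import Pool.Agent.H594.ML.IntM

set_option autoImplicit false
set_option linter.unusedSectionVars false

/-!
# Products of powers of linear factors at the elements of a number field
-/

namespace Pool.Agent.H594.KP

open Finset IsDedekindDomain NumberField WithZero
open Pool.Agent.H594.ML
open Pool.Agent.Helper259.AbsHt Pool.Agent.Y215.SK Pool.Agent.Y215.AF

theorem zpow_sum_g {K ι : Type*} [CommGroupWithZero K] {t : K} (ht : t ≠ 0) (s : Finset ι)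
    (f : ι → ℤ) : t ^ (∑ i ∈ s, f i) = ∏ i ∈ s, t ^ f i := by
  classical
  induction s using Finset.induction_on with
  | empty => simp
  | insert a s ha ih => rw [Finset.sum_insert ha, Finset.prod_insert ha, zpow_add₀ ht, ih]

theorem zpow_eq_one {x : ℤᵐ⁰} {n : ℤ} (hn : n ≠ 0) (h : x ^ n = 1) : x = 1 := by
  rcases lt_or_gt_of_ne hn with hneg | hpos
  · obtain ⟨m, hm⟩ : ∃ m : ℕ, n = -(m : ℤ) := ⟨(-n).toNat, by omega⟩
    rw [hm, zpow_neg, zpow_natCast, inv_eq_one] at h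
    rcases pow_eq_one_iff.1 h with h3 | h3
    · exact h3
    · omega
  · obtain ⟨m, hm⟩ : ∃ m : ℕ, n = (m : ℤ) := ⟨n.toNat, by omega⟩
    rw [hm, zpow_natCast] at h
    rcases pow_eq_one_iff.1 h with h3 | h3
    · exact h3
    · omega

section

variable {L : IntermediateField ℚ Qbar} [NumberField L] {v : HeightOneSpectrum (𝓞 L)}

/-- the local analysis at a place of good reduction -/
theorem local_units (R : Finset L) (s : L)
    (hR : ∀ a ∈ R, v.valuation L a ≤ 1)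
    (hdiff : ∀ a ∈ R, ∀ b ∈ R, a ≠ b → v.valuation L (a - b) = 1) (μ : L → ℤ)
    (hprod : v.valuation L (∏ a ∈ R, (s - a) ^ μ a) = 1) :
    (v.valuation L s ≤ 1 ∧ ∀ a ∈ R, μ a ≠ 0 → v.valuation L (s - a) = 1) ∨
      (1 < v.valuation L s ∧ (∀ a ∈ R, v.valuation L (s - a) = v.valuation L s) ∧
        ∑ a ∈ R, μ a = 0) := by
  classical
  rcases le_or_gt (v.valuation L s) 1 with h1 | h1
  · refine Or.inl ⟨h1, fun a ha hμ => ?_⟩
    have hle : ∀ b ∈ R, v.valuation L (s - b) ≤ 1 := fun b hb =>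
      ((v.valuation L).map_sub s b).trans (max_le h1 (hR b hb))
    refine le_antisymm (hle a ha) (not_lt.1 fun hlt => ?_)
    have hother : ∀ b ∈ R, b ≠ a → v.valuation L (s - b) = 1 := by
      intro b hb hba
      have e : s - b = (s - a) + (a - b) := by ring
      rw [e, (v.valuation L).map_add_eq_of_lt_right (by rw [hdiff a ha b hb hba.symm]; exact hlt),
        hdiff a ha b hb hba.symm]
    rw [map_prod, Finset.prod_eq_single a] at hprod
    · rw [map_zpow₀] at hprod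
      exact hlt.ne (zpow_eq_one hμ hprod)
    · intro b hb hba
      rw [map_zpow₀, hother b hb hba, one_zpow]
    · intro h
      exact absurd ha h
  · have h2 : ∀ a ∈ R, v.valuation L (s - a) = v.valuation L s := fun a ha =>
      val_sub_eq h1 (hR a ha)
    refine Or.inr ⟨h1, h2, ?_⟩
    by_contra hne
    rw [map_prod, Finset.prod_congr rfl fun a ha => by rw [map_zpow₀, h2 a ha]] at hprod
    rw [← zpow_sum_g (by
      intro h0
      rw [h0] at h1
      exact not_lt_zero' h1)] at hprod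
    exact h1.ne' (zpow_eq_one hne hprod)

end

/-- **Units.** -/
theorem field_units_multi (Γ : Subgroup Qbarˣ) (hΓ : Γ.FG) (K : IntermediateField ℚ Qbar)
    [FiniteDimensional ℚ K] (R : Finset Qbar) :
    ∃ Γ' : Subgroup Qbarˣ, Γ'.FG ∧ ∀ s ∈ K, (∀ a ∈ R, s ≠ a) →
      ∀ (μ : Qbar → ℤ), ∀ u ∈ DivHull Γ, ∏ a ∈ R, (s - a) ^ μ a = (u : Qbar) →
      (∑ a ∈ R, μ a ≠ 0 → ∀ a ∈ R, μ a ≠ 0 → ∃ w ∈ Γ', s - a = ((w : Qbarˣ) : Qbar)) ∧
      ∀ a ∈ R, ∀ b ∈ R, μ a ≠ 0 → μ b ≠ 0 → ∃ w ∈ Γ', (s - a) / (s - b) = ((w : Qbarˣ) : Qbar) := by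
  classical
  obtain ⟨g, hg⟩ := hΓ
  obtain ⟨L, hL, hKL, hXL, -⟩ := exists_field K (R ∪ g.image (fun u : Qbarˣ => (u : Qbar))) ∅
  have hRL : ∀ a ∈ R, a ∈ L := fun a ha => hXL a (Finset.mem_union_left _ ha)
  obtain ⟨S1, hS1, hu1⟩ := hull_unit L g (fun u hu => hXL _ (Finset.mem_union_right _
    (Finset.mem_image_of_mem _ hu)))
  let R' : Finset L := R.attach.image fun a => ⟨a.1, hRL a.1 a.2⟩
  have hR'mem : ∀ a : L, a ∈ R' ↔ (a : Qbar) ∈ R := by
    intro a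
    constructor
    · intro h
      obtain ⟨b, -, rfl⟩ := Finset.mem_image.1 h
      exact b.2
    · intro h
      exact Finset.mem_image.2 ⟨⟨(a : Qbar), h⟩, Finset.mem_attach _ _, rfl⟩
  obtain ⟨S2, hS2, hu2⟩ := good_set (L := L) (R' ∪ (R' ×ˢ R').image fun z => z.1 - z.2)
  have hSfin := hS1.union hS2
  refine ⟨SU (algebraMap L Qbar) (S1 ∪ S2), SU_fg _ _ hSfin, fun s hsK hsR μ u hu he => ?_⟩
  let s' : L := ⟨s, hKL hsK⟩
  let μ' : L → ℤ := fun a => μ (a : Qbar)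
  have hRprod : ∏ a ∈ R, (s - a) ^ μ a = ((∏ a ∈ R', (s' - a) ^ μ' a : L) : Qbar) := by
    have h1 : ((∏ a ∈ R', (s' - a) ^ μ' a : L) : Qbar) =
        ∏ a ∈ R', (s - (a : Qbar)) ^ μ (a : Qbar) := by
      have h2 := map_prod (algebraMap L Qbar) (fun a : L => (s' - a) ^ μ' a) R'
      refine h2.trans (Finset.prod_congr rfl fun a _ => ?_)
      rw [map_zpow₀, map_sub]
      rfl
    rw [h1]
    show _ = ∏ a ∈ R.attach.image fun a => (⟨a.1, hRL a.1 a.2⟩ : L), _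
    rw [Finset.prod_image]
    · exact (Finset.prod_attach R fun a => (s - a) ^ μ a).symm
    · intro a _ b _ hab
      exact Subtype.ext (congrArg (fun z : L => (z : Qbar)) hab)
  have hloc : ∀ v ∉ S1 ∪ S2, (v.valuation L s' ≤ 1 ∧ ∀ a ∈ R', μ' a ≠ 0 →
      v.valuation L (s' - a) = 1) ∨ (1 < v.valuation L s' ∧ (∀ a ∈ R', v.valuation L (s' - a) =
        v.valuation L s') ∧ ∑ a ∈ R', μ' a = 0) := by
    intro v hv
    refine local_units R' s' (fun a ha => val_le_one_of (hu2 v (fun h => hv (Or.inr h)) a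
      (Finset.mem_union_left _ ha))) (fun a ha b hb hab => hu2 v (fun h => hv (Or.inr h)) _
      (Finset.mem_union_right _ (Finset.mem_image.2 ⟨(a, b), Finset.mk_mem_product ha hb, rfl⟩))
      (sub_ne_zero.2 hab)) μ' ?_
    refine hu1 v (fun h => hv (Or.inl h)) _ ⟨u, ?_, ?_⟩
    · rw [hg]
      exact hu
    · rw [← hRprod, he]
  have hsum : ∑ a ∈ R', μ' a = ∑ a ∈ R, μ a := by
    show ∑ a ∈ R.attach.image fun a => (⟨a.1, hRL a.1 a.2⟩ : L), μ (a : Qbar) = _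
    rw [Finset.sum_image]
    · exact Finset.sum_attach R fun a => μ a
    · intro a _ b _ hab
      exact Subtype.ext (congrArg (fun z : L => (z : Qbar)) hab)
  have hne : ∀ a ∈ R, s - a ≠ 0 := fun a ha => sub_ne_zero.2 (hsR a ha)
  have hunit : ∀ (w : Qbar) (hw : w ∈ L), w ≠ 0 →
      (∀ v ∉ S1 ∪ S2, v.valuation L (⟨w, hw⟩ : L) = 1) →
      ∃ w' ∈ SU (algebraMap L Qbar) (S1 ∪ S2), w = ((w' : Qbarˣ) : Qbar) := by
    intro w hw hw0 hv
    let w0 : Lˣ := Units.mk0 ⟨w, hw⟩ (fun h => hw0 (congrArg Subtype.val h))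
    exact ⟨Units.map ((algebraMap L Qbar : L →+* Qbar) : L →* Qbar) w0,
      Subgroup.mem_map_of_mem _ (fun v hv' => hv v hv'), rfl⟩
  refine ⟨fun hμ a ha hμa => ?_, fun a ha b hb hμa hμb => ?_⟩
  · refine hunit _ (L.sub_mem (hKL hsK) (hRL a ha)) (hne a ha) fun v hv => ?_
    rcases hloc v hv with ⟨-, h⟩ | ⟨-, -, h⟩
    · exact h ⟨a, hRL a ha⟩ ((hR'mem _).2 ha) hμa
    · exact absurd (hsum.symm.trans h) hμ
  · refine hunit _ (L.div_mem (L.sub_mem (hKL hsK) (hRL a ha)) (L.sub_mem (hKL hsK) (hRL b hb)))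
      (div_ne_zero (hne a ha) (hne b hb)) fun v hv => ?_
    have e : (⟨(s - a) / (s - b), L.div_mem (L.sub_mem (hKL hsK) (hRL a ha))
        (L.sub_mem (hKL hsK) (hRL b hb))⟩ : L) = (s' - ⟨a, hRL a ha⟩) / (s' - ⟨b, hRL b hb⟩) := rfl
    rw [e, map_div₀]
    rcases hloc v hv with ⟨-, h⟩ | ⟨h1, h, -⟩
    · rw [h _ ((hR'mem ⟨a, hRL a ha⟩).2 ha) hμa, h _ ((hR'mem ⟨b, hRL b hb⟩).2 hb) hμb, div_one]
    · rw [h _ ((hR'mem ⟨a, hRL a ha⟩).2 ha), h _ ((hR'mem ⟨b, hRL b hb⟩).2 hb), div_self]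
      intro h0
      rw [h0] at h1
      exact not_lt_zero' h1

end Pool.Agent.H594.KP
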