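import Mathlib
import Pool.Agent.H594.ML.Struct
import Pool.Agent.H594.ML.Free

set_option autoImplicit false
set_option linter.unusedSectionVars false

/-!
# Linear relations between logarithms and rational functionals of the coefficients
-/

namespace Pool.Agent.H594.KP

open Finset
open Pool.Agent.H594.ML
open Pool.Agent.Helper259.AbsHt Pool.Agent.Y215.SK
open Pool.Agent.H301R2.SSE (QB mem_QB Lt Lt_one Lt_mul Lt_alg Lt_log)

/-- rational combinations of logarithms of algebraic numbers are logarithms of algebraic numbers -/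
theorem exp_alg_smul {l : ℂ} (h : IsAlgebraic ℚ (Complex.exp l)) (q : ℚ) :
    IsAlgebraic ℚ (Complex.exp (q • l)) := by
  have h1 : Complex.exp (q • l) ^ q.den = Complex.exp l ^ q.num := by
    rw [← Complex.exp_nat_mul, ← Complex.exp_int_mul]
    congr 1
    have h2 : (q.den : ℂ) ≠ 0 := Nat.cast_ne_zero.2 q.den_pos.ne'
    rw [Rat.smul_def, Rat.cast_def q]
    field_simp
  refine IsAlgebraic.of_pow q.den_pos ?_
  rw [h1, ← mem_algebraicClosure_iff]
  exact zpow_mem (mem_algebraicClosure_iff.2 h) _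

theorem exp_alg_add {l l' : ℂ} (h : IsAlgebraic ℚ (Complex.exp l))
    (h' : IsAlgebraic ℚ (Complex.exp l')) : IsAlgebraic ℚ (Complex.exp (l + l')) := by
  rw [Complex.exp_add]
  exact h.mul h'

/-- the logarithms of algebraic numbers -/
noncomputable def logs : Submodule ℚ ℂ where
  carrier := {l | IsAlgebraic ℚ (Complex.exp l)}
  add_mem' := fun h h' => exp_alg_add h h'
  zero_mem' := by
    show IsAlgebraic ℚ (Complex.exp 0)
    rw [Complex.exp_zero]
    exact isAlgebraic_one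
  smul_mem' := fun q l h => exp_alg_smul h q

/-- **The dual form of the structure theorem.** -/
theorem struct2 (X : Submodule QB ℂ) (hX : X.FG) :
    ∃ B : Finset ℂ, (∀ b ∈ B, IsAlgebraic ℚ (Complex.exp b)) ∧ ∀ (k : ℕ) (l : Fin k → ℂ),
      (∀ j, IsAlgebraic ℚ (Complex.exp (l j))) → ∀ Y ≤ X, ∀ x₀ ∈ X, ∀ x : Fin k → ℂ,
      (∀ j, x j ∈ X) → x₀ + ∑ j, x j * l j ∈ Y * Lt →
      ∀ g : ℂ →ₗ[ℚ] ℚ, (∀ y ∈ Y, g y = 0) →
        ∑ j, g (x j) • l j ∈ Submodule.span ℚ (B : Set ℂ) := by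
  classical
  obtain ⟨B, hB1, hB2⟩ := struct X hX
  refine ⟨B, hB1, fun k l hl Y hY x₀ hx₀ x hx hrel g hg => ?_⟩
  let W : Submodule ℚ ℂ := Submodule.span ℚ (B : Set ℂ)
  let v : Fin k → ℂ ⧸ W := fun j => W.mkQ (l j)
  obtain ⟨b, -, -, hb1, hb2⟩ := exists_linearIndepOn_extension
    (K := ℚ) (v := v) (s := (∅ : Set (Fin k))) (t := Set.univ)
    (linearIndepOn_empty ℚ v) (Set.subset_univ _)
  have hq : ∀ j, ∃ q : Fin k → ℚ, (∀ i, i ∉ b → q i = 0) ∧ l j - ∑ i, q i • l i ∈ W := by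
    intro j
    have h1 : v j ∈ Submodule.span ℚ (v '' b) := hb1 ⟨j, Set.mem_univ j, rfl⟩
    obtain ⟨t, ht, c, hc⟩ := (Submodule.mem_span_image_iff_exists_fun ℚ).1 h1
    refine ⟨fun i => if h : i ∈ t then c ⟨i, h⟩ else 0, fun i hi => dif_neg fun h => hi (ht h), ?_⟩
    have h2 : ∑ i, (if h : i ∈ t then c ⟨i, h⟩ else 0) • l i = ∑ i : t, c i • l i := by
      have h3 : ∑ i : t, c i • l i = ∑ i : t, (if h : (i : Fin k) ∈ t then c ⟨i, h⟩ else 0) •
          l (i : Fin k) := by
        refine Finset.sum_congr rfl fun i _ => ?_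
        rw [dif_pos i.2]
      rw [h3, Finset.sum_coe_sort t (fun i => (if h : i ∈ t then c ⟨i, h⟩ else 0) • l i)]
      symm
      refine Finset.sum_subset (Finset.subset_univ t) fun i _ hi => ?_
      rw [dif_neg hi, zero_smul]
    rw [h2]
    rw [← Submodule.Quotient.mk_eq_zero, Submodule.Quotient.mk_sub, sub_eq_zero]
    have h4 : (Submodule.Quotient.mk (∑ i : t, c i • l i) : ℂ ⧸ W) = ∑ i : t, c i • v i := by
      have h5 := map_sum W.mkQ (fun i : t => c i • l i) Finset.univ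
      simp only [Submodule.mkQ_apply, Submodule.Quotient.mk_smul] at h5
      exact h5
    rw [h4, hc]
    rfl
  choose q hq1 hq2 using hq
  let β : Fin k → ℂ := fun j => l j - ∑ i, q j i • l i
  have hlogs : ∀ j, l j ∈ logs := hl
  have hβ : ∀ j, β j ∈ logs := fun j =>
    logs.sub_mem (hlogs j) (logs.sum_mem fun i _ => logs.smul_mem _ (hlogs i))
  let lam : b ⊕ Fin k → ℂ := Sum.elim (fun i : b => l i) β
  let y : b ⊕ Fin k → ℂ := Sum.elim (fun i : b => ∑ j, (q j i : ℂ) * x j) x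
  have hsum : ∑ i, y i * lam i = ∑ j, x j * l j := by
    rw [Fintype.sum_sum_type]
    show ∑ i : b, (∑ j, (q j i : ℂ) * x j) * l i + ∑ j, x j * β j = _
    have h1 : ∑ i : b, (∑ j, (q j i : ℂ) * x j) * l i = ∑ i, (∑ j, (q j i : ℂ) * x j) * l i := by
      rw [Finset.sum_set_coe b (f := fun i => (∑ j, (q j i : ℂ) * x j) * l i)]
      refine Finset.sum_subset (Finset.subset_univ _) fun i _ hi => ?_
      have hi' : i ∉ b := fun h => hi (Set.mem_toFinset.2 h)
      simp [hq1 _ i hi']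
    rw [h1]
    have h3 : ∀ j, x j * β j = x j * l j - ∑ i, (q j i : ℂ) * x j * l i := by
      intro j
      show x j * (l j - ∑ i, q j i • l i) = _
      rw [mul_sub, Finset.mul_sum]
      congr 1
      refine Finset.sum_congr rfl fun i _ => ?_
      rw [Rat.smul_def]
      ring
    simp only [h3, Finset.sum_sub_distrib, Finset.sum_mul]
    rw [Finset.sum_comm]
    ring
  have hyX : ∀ i, y i ∈ X := by
    rintro (i | j)
    · refine X.sum_mem fun j _ => ?_
      have h1 := X.smul_mem ((q j i : ℚ) : QB) (hx j)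
      rw [qsmul] at h1
      exact_mod_cast h1
    · exact hx j
  have hmain : ∀ i : b, ∑ j, (q j i : ℂ) * x j ∈ Y := by
    intro i
    refine hB2 (b ⊕ Fin k) lam ?_ Y hY x₀ hx₀ y hyX (by rw [hsum]; exact hrel) (Sum.inl i) ?_
    · rintro (i | j)
      · exact hl i
      · exact hβ j
    · intro hmem
      have h1 := (linearIndepOn_iff_notMem_span.1 hb2) i i.2
      apply h1
      have h2 : W.mkQ (lam (Sum.inl i)) ∈ (Submodule.span ℚ ((B : Set ℂ) ∪
          lam '' {i' | i' ≠ Sum.inl i})).map W.mkQ := ⟨_, hmem, rfl⟩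
      rw [Submodule.map_span] at h2
      refine (Submodule.span_le.2 ?_) h2
      rintro _ ⟨w, (hw | ⟨i', hi', rfl⟩), rfl⟩
      · have h3 : W.mkQ w = 0 := by
          rw [Submodule.mkQ_apply, Submodule.Quotient.mk_eq_zero]
          exact Submodule.subset_span hw
        rw [h3]
        exact Submodule.zero_mem _
      · rcases i' with i' | j
        · refine Submodule.subset_span ⟨i', ⟨i'.2, ?_⟩, rfl⟩
          intro h4
          apply hi'
          show Sum.inl i' = Sum.inl i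
          rw [Sum.inl.injEq]
          exact Subtype.ext h4
        · have h3 : W.mkQ (lam (Sum.inr j)) = 0 := by
            rw [Submodule.mkQ_apply, Submodule.Quotient.mk_eq_zero]
            exact hq2 j
          rw [h3]
          exact Submodule.zero_mem _
  -- conclusion
  have hzero : ∀ i, ∑ j, q j i * g (x j) = 0 := by
    intro i
    by_cases hi : i ∈ b
    · have h1 := hg _ (hmain ⟨i, hi⟩)
      rw [map_sum] at h1
      rw [← h1]
      refine Finset.sum_congr rfl fun j _ => ?_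
      have h2 : (q j i : ℂ) * x j = q j i • x j := (Rat.smul_def _ _).symm
      rw [h2, map_smul, smul_eq_mul]
    · simp [hq1 _ i hi]
  have hfin : ∑ j, g (x j) • l j = ∑ j, g (x j) • β j := by
    have h1 : ∀ j, g (x j) • β j = g (x j) • l j - ∑ i, (q j i * g (x j)) • l i := by
      intro j
      show g (x j) • (l j - ∑ i, q j i • l i) = _
      rw [smul_sub, Finset.smul_sum]
      congr 1
      refine Finset.sum_congr rfl fun i _ => ?_
      rw [smul_smul, mul_comm]
    simp only [h1, Finset.sum_sub_distrib]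
    rw [Finset.sum_comm]
    have h2 : ∑ i, ∑ j, (q j i * g (x j)) • l i = 0 := by
      refine Finset.sum_eq_zero fun i _ => ?_
      rw [← Finset.sum_smul, hzero, zero_smul]
    rw [h2, sub_zero]
  rw [hfin]
  exact W.sum_mem fun j _ => W.smul_mem _ (hq2 j)

/-- **Relations between the logarithms of algebraic numbers which are multiplicatively independent
modulo a group of finite rank.** -/
theorem free_main (X : Submodule QB ℂ) (hX : X.FG) :
    ∃ Γ : Subgroup Qbarˣ, Γ.FG ∧ ∀ (k : ℕ) (α : Fin k → ℂ), (∀ j, IsAlgebraic ℚ (α j)) →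
      (∀ m : Fin k → ℤ, m ≠ 0 → ¬ ∃ u ∈ DivHull Γ, ∏ j, α j ^ m j = sg u) →
      ∀ l : Fin k → ℂ, (∀ j, Complex.exp (l j) = α j) → ∀ Y ≤ X, ∀ x₀ ∈ X, ∀ x : Fin k → ℂ,
      (∀ j, x j ∈ X) → x₀ + ∑ j, x j * l j ∈ Y * Lt → ∀ j, x j ∈ Y := by
  classical
  obtain ⟨B, hB1, hB2⟩ := struct2 X hX
  have hU : ∀ b : ℂ, ∃ u : Qbarˣ, b ∈ B → Complex.exp b = sg u := by
    intro b
    by_cases hb : b ∈ B
    · obtain ⟨u, hu⟩ := exists_unit (hB1 b hb) (Complex.exp_ne_zero b)
      exact ⟨u, fun _ => hu⟩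
    · exact ⟨1, fun h => absurd h hb⟩
  choose U hU using hU
  let Γ : Subgroup Qbarˣ := Subgroup.closure (U '' B)
  have hΓ : Γ.FG := (Subgroup.fg_iff _).2 ⟨U '' B, rfl, B.finite_toSet.image U⟩
  refine ⟨Γ, hΓ, fun k α hα hind l hl Y hY x₀ hx₀ x hx hrel i => ?_⟩
  by_contra hi
  obtain ⟨g, hg, hgi⟩ := exists_g Y hi
  let N : ℕ := ∏ j, (g (x j)).den
  have hN : N ≠ 0 := Finset.prod_ne_zero_iff.2 fun j _ => (g (x j)).den_ne_zero
  have hint : ∀ j, ∃ m : ℤ, (m : ℚ) = N * g (x j) := by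
    intro j
    obtain ⟨c, hc⟩ : (g (x j)).den ∣ N := Finset.dvd_prod_of_mem _ (Finset.mem_univ j)
    refine ⟨c * (g (x j)).num, ?_⟩
    rw [hc]
    push_cast
    have h1 := Rat.mul_den_eq_num (g (x j))
    rw [← h1]
    ring
  choose m hm using hint
  have hspan := hB2 k l (fun j => by rw [hl]; exact hα j) Y hY x₀ hx₀ x hx hrel g hg
  have hspan2 : ∑ j, (m j : ℂ) * l j ∈ Submodule.span ℚ (B : Set ℂ) := by
    have h1 : ∑ j, (m j : ℂ) * l j = (N : ℚ) • ∑ j, g (x j) • l j := by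
      rw [Finset.smul_sum]
      refine Finset.sum_congr rfl fun j _ => ?_
      rw [smul_smul, ← hm, Rat.smul_def]
      push_cast
      rfl
    rw [h1]
    exact Submodule.smul_mem _ _ hspan
  obtain ⟨n, hn, w, hw, e⟩ := span_hull (Γ := Γ) (b := (B : Set ℂ)) (fun b hb =>
    ⟨U b, Subgroup.subset_closure ⟨b, hb, rfl⟩, hU b (Finset.mem_coe.1 hb)⟩) hspan2
  have hprod : Complex.exp (∑ j, (m j : ℂ) * l j) = ∏ j, α j ^ m j := by
    rw [exp_comb]
    exact Finset.prod_congr rfl fun j _ => by rw [hl]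
  refine hind m ?_ ?_
  · intro h0
    have h1 := hm i
    rw [h0, Pi.zero_apply, Int.cast_zero] at h1
    exact (mul_ne_zero (Nat.cast_ne_zero.2 hN) hgi) h1.symm
  · have halg : IsAlgebraic ℚ (∏ j, α j ^ m j) := by
      rw [← mem_algebraicClosure_iff]
      exact prod_mem fun j _ => zpow_mem (mem_algebraicClosure_iff.2 (hα j)) _
    obtain ⟨u, hu⟩ := exists_unit halg (by rw [← hprod]; exact Complex.exp_ne_zero _)
    refine ⟨u, ⟨n, hn, ?_⟩, hu⟩
    have h4 : u ^ n = w := by
      apply sgu_inj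
      rw [Units.val_pow_eq_pow_val, map_pow, ← hu, ← hprod, ← Complex.exp_nat_mul, e]
    rw [h4]
    exact hw

open Pool.Agent.W254.HP (boxV) in
/-- the version for powers -/
theorem powers_main {r k : ℕ} (t : Fin r → ℂ) (D : ℕ) (w : Fin k → ℂ) :
    ∃ Γ : Subgroup Qbarˣ, Γ.FG ∧ ∀ (α : Fin k → ℂ), (∀ j, IsAlgebraic ℚ (α j)) →
      (∀ m : Fin k → ℤ, m ≠ 0 → ¬ ∃ u ∈ DivHull Γ, ∏ j, α j ^ m j = sg u) →
      ∀ l : Fin k → ℂ, (∀ j, Complex.exp (l j) = α j) →
      ∀ (A₀ Q : MvPolynomial (Fin r) QB) (A : Fin k → MvPolynomial (Fin r) QB),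
        (∀ i, A₀.degreeOf i ≤ D) → (∀ i, Q.degreeOf i ≤ D) → (∀ j i, (A j).degreeOf i ≤ D) →
        MvPolynomial.aeval t Q ≠ 0 →
        MvPolynomial.aeval t A₀ / MvPolynomial.aeval t Q +
          ∑ j, MvPolynomial.aeval t (A j) / MvPolynomial.aeval t Q * (l j + w j) ∈ Lt →
        ∀ j, ∃ c : QB, MvPolynomial.aeval t (A j) / MvPolynomial.aeval t Q = (c : ℂ) := by
  classical
  let X : Submodule QB ℂ := boxV t (D + 1) * Submodule.span QB ({1} ∪ Set.range w)
  have hX : X.FG := Submodule.FG.mul (Submodule.fg_span (Set.finite_range _))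
    (Submodule.fg_span ((Set.finite_singleton _).union (Set.finite_range _)))
  have hmem : ∀ P : MvPolynomial (Fin r) QB, (∀ i, P.degreeOf i ≤ D) →
      MvPolynomial.aeval t P ∈ X := by
    intro P hP
    have h1 := Submodule.mul_mem_mul (Pool.Agent.HP778.aeval_mem_box t D P hP)
      (Submodule.subset_span (R := QB) (s := ({1} ∪ Set.range w)) (Or.inl rfl))
    rwa [mul_one] at h1
  have hmemw : ∀ P : MvPolynomial (Fin r) QB, (∀ i, P.degreeOf i ≤ D) → ∀ j,
      MvPolynomial.aeval t P * w j ∈ X := fun P hP j =>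
    Submodule.mul_mem_mul (Pool.Agent.HP778.aeval_mem_box t D P hP)
      (Submodule.subset_span (Or.inr ⟨j, rfl⟩))
  obtain ⟨Γ, hΓ, hmain⟩ := free_main X hX
  refine ⟨Γ, hΓ, fun α hα hind l hl A₀ Q A hA₀ hQ hA hQ0 hrel j => ?_⟩
  have hY : Submodule.span QB {MvPolynomial.aeval t Q} ≤ X := by
    rw [Submodule.span_singleton_le_iff_mem]
    exact hmem Q hQ
  have h1 := hmain k α hα hind l hl _ hY
    (MvPolynomial.aeval t A₀ + ∑ j, MvPolynomial.aeval t (A j) * w j)
    (X.add_mem (hmem A₀ hA₀) (X.sum_mem fun j _ => hmemw (A j) (hA j) j))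
    (fun j => MvPolynomial.aeval t (A j)) (fun j => hmem (A j) (hA j)) (by
      have h3 := Submodule.mul_mem_mul (Submodule.mem_span_singleton_self (R := QB)
        (MvPolynomial.aeval t Q)) hrel
      have h4 : MvPolynomial.aeval t Q * (MvPolynomial.aeval t A₀ / MvPolynomial.aeval t Q +
          ∑ j, MvPolynomial.aeval t (A j) / MvPolynomial.aeval t Q * (l j + w j)) =
          MvPolynomial.aeval t A₀ + ∑ j, MvPolynomial.aeval t (A j) * w j +
            ∑ j, MvPolynomial.aeval t (A j) * l j := by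
        rw [mul_add, mul_div_cancel₀ _ hQ0, Finset.mul_sum, add_assoc, ← Finset.sum_add_distrib]
        congr 1
        refine Finset.sum_congr rfl fun j _ => ?_
        field_simp
        ring
      rw [← h4]
      exact h3) j
  obtain ⟨c, hc⟩ := Submodule.mem_span_singleton.1 h1
  refine ⟨c, ?_⟩
  rw [div_eq_iff hQ0, ← hc, qsmul]

end Pool.Agent.H594.KP
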