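import Mathlib
import Pool.Agent.H594.ML.IntC

set_option autoImplicit false
set_option linter.unusedSectionVars false

/-!
# Independence of quotients of linear functions
-/

namespace Pool.Agent.H594.KP

open Finset
open Pool.Agent.H594.ML
open Pool.Agent.Helper259.AbsHt Pool.Agent.Y215.SK

/-- the linear function with the zero `a` -/
noncomputable def lf (a : ℂ) : RatFunc ℂ :=
  algebraMap (Polynomial ℂ) (RatFunc ℂ) (Polynomial.X - Polynomial.C a)

theorem lf_ne (a : ℂ) : lf a ≠ 0 := RatFunc.algebraMap_ne_zero (Polynomial.X_sub_C_ne_zero a)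

theorem eval_frac {a b z : ℂ} (hz : z ≠ b) :
    (lf a / lf b).eval (RingHom.id ℂ) z = (z - a) / (z - b) := by
  have hb : z - b ≠ 0 := sub_ne_zero.2 hz
  have h1 : (lf a / lf b).denom ∣ Polynomial.X - Polynomial.C b :=
    RatFunc.denom_div_dvd _ _
  have h2 : Polynomial.eval₂ (RingHom.id ℂ) z (lf a / lf b).denom ≠ 0 := by
    rw [Polynomial.eval₂_id]
    obtain ⟨r, hr⟩ := h1
    intro h0
    have h3 := congrArg (Polynomial.eval z) hr
    rw [Polynomial.eval_mul, h0, zero_mul, Polynomial.eval_sub, Polynomial.eval_X,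
      Polynomial.eval_C] at h3
    exact hb h3
  have h3 : Polynomial.eval₂ (RingHom.id ℂ) z (lf b).denom ≠ 0 := by
    unfold lf
    rw [RatFunc.denom_algebraMap]
    simp
  have h4 := RatFunc.eval_mul (f := RingHom.id ℂ) (a := z) (x := lf a / lf b) (y := lf b) h2 h3
  rw [div_mul_cancel₀ _ (lf_ne b)] at h4
  have h5 : ∀ c : ℂ, (lf c).eval (RingHom.id ℂ) z = z - c := fun c => eval_linear c z
  rw [h5, h5] at h4
  rw [eq_div_iff hb, ← h4]

theorem indep_inv {f g : RatFunc ℂ} (h : MulIndep f g) : MulIndep f g⁻¹ := by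
  intro a b hab c he
  refine h a (-b) (hab.imp id neg_ne_zero.2) c ?_
  rw [← he, inv_zpow, zpow_neg]

theorem indep_core {a b a' b' : ℂ} (hab : a ≠ b) (h1 : a' ≠ a) (h2 : a' ≠ b) (h3 : a' ≠ b') :
    MulIndep (lf a / lf b) (lf a' / lf b') := by
  intro k l hkl c he
  have e0 : (lf a) ^ k.toNat * (lf b) ^ (-k).toNat * ((lf a') ^ l.toNat * (lf b') ^ (-l).toNat) =
      RatFunc.C c * ((lf a) ^ (-k).toNat * (lf b) ^ k.toNat *
        ((lf a') ^ (-l).toNat * (lf b') ^ l.toNat)) := by
    rw [← he, div_zpow, div_zpow, zpow_toNat (lf a) k (lf_ne a), zpow_toNat (lf b) k (lf_ne b),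
      zpow_toNat (lf a') l (lf_ne a'), zpow_toNat (lf b') l (lf_ne b')]
    have p1 := pow_ne_zero k.toNat (lf_ne a)
    have p2 := pow_ne_zero (-k).toNat (lf_ne a)
    have p3 := pow_ne_zero k.toNat (lf_ne b)
    have p4 := pow_ne_zero (-k).toNat (lf_ne b)
    have p5 := pow_ne_zero l.toNat (lf_ne a')
    have p6 := pow_ne_zero (-l).toNat (lf_ne a')
    have p7 := pow_ne_zero l.toNat (lf_ne b')
    have p8 := pow_ne_zero (-l).toNat (lf_ne b')
    field_simp
  rw [← RatFunc.algebraMap_C] at e0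
  unfold lf at e0
  simp only [← map_pow, ← map_mul] at e0
  have e1 := RatFunc.algebraMap_injective ℂ e0
  have ev := fun z : ℂ => congrArg (fun P : Polynomial ℂ => P.eval z) e1
  simp only [Polynomial.eval_mul, Polynomial.eval_pow, Polynomial.eval_sub, Polynomial.eval_X,
    Polynomial.eval_C] at ev
  have hc : c ≠ 0 := by
    rintro rfl
    rw [Polynomial.C_0, zero_mul] at e1
    exact (mul_ne_zero (mul_ne_zero (pow_ne_zero _ (Polynomial.X_sub_C_ne_zero a))
      (pow_ne_zero _ (Polynomial.X_sub_C_ne_zero b)))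
      (mul_ne_zero (pow_ne_zero _ (Polynomial.X_sub_C_ne_zero a'))
      (pow_ne_zero _ (Polynomial.X_sub_C_ne_zero b')))) e1
  have d1 : a' - a ≠ 0 := sub_ne_zero.2 h1
  have d2 : a' - b ≠ 0 := sub_ne_zero.2 h2
  have d3 : a' - b' ≠ 0 := sub_ne_zero.2 h3
  have d4 : a - b ≠ 0 := sub_ne_zero.2 hab
  rcases lt_trichotomy l 0 with hl | hl | hl
  · have t1 : l.toNat = 0 := by omega
    have t2 : (-l).toNat ≠ 0 := by omega
    have h := ev a'
    rw [sub_self, t1, zero_pow t2, pow_zero, pow_zero, zero_mul, mul_zero, mul_zero,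
      one_mul] at h
    exact (mul_ne_zero (mul_ne_zero (pow_ne_zero _ d1) (pow_ne_zero _ d2))
      (pow_ne_zero _ d3)) h
  · subst hl
    have hk : k ≠ 0 := hkl.resolve_right (fun h => h rfl)
    have h := ev a
    simp only [Int.toNat_zero, neg_zero, pow_zero, mul_one, sub_self] at h
    rcases lt_or_gt_of_ne hk with hk | hk
    · have t1 : k.toNat = 0 := by omega
      have t2 : (-k).toNat ≠ 0 := by omega
      rw [t1, zero_pow t2, pow_zero, one_mul, zero_mul, mul_zero] at h
      exact pow_ne_zero _ d4 h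
    · have t1 : (-k).toNat = 0 := by omega
      have t2 : k.toNat ≠ 0 := by omega
      rw [t1, zero_pow t2, pow_zero, pow_zero, zero_mul, one_mul] at h
      exact (mul_ne_zero hc (pow_ne_zero _ d4)) h.symm
  · have t1 : (-l).toNat = 0 := by omega
    have t2 : l.toNat ≠ 0 := by omega
    have h := ev a'
    rw [sub_self, t1, zero_pow t2, pow_zero, pow_zero, zero_mul, mul_zero, one_mul] at h
    exact (mul_ne_zero hc (mul_ne_zero (mul_ne_zero (pow_ne_zero _ d1) (pow_ne_zero _ d2))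
      (pow_ne_zero _ d3))) h.symm

theorem indep_frac {a b a' b' : ℂ} (hab : a ≠ b) (hab' : a' ≠ b')
    (h : (a' ≠ a ∧ a' ≠ b) ∨ (b' ≠ a ∧ b' ≠ b)) : MulIndep (lf a / lf b) (lf a' / lf b') := by
  rcases h with ⟨h1, h2⟩ | ⟨h1, h2⟩
  · exact indep_core hab h1 h2 hab'
  · have h3 := indep_inv (indep_core hab h1 h2 hab'.symm)
    rwa [inv_div] at h3

end Pool.Agent.H594.KP
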