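import Mathlib
import Pool.Agent.H594.KP.Units
import Pool.Agent.H594.KP.Frac

set_option autoImplicit false
set_option linter.unusedSectionVars false

/-!
# Rational functions with three zeros or poles at the elements of a number field
-/

namespace Pool.Agent.H594.KP

open Finset
open Pool.Agent.H594.ML
open Pool.Agent.Helper259.AbsHt Pool.Agent.Y215.SK Pool.Agent.Y215.AF

/-- The order functions (on the finite points) of the functions `c (x - a) ^ r`, `a` in `K`, and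
`c ((x - a) / (x - b)) ^ r`, `a + b` and `a b` in `K`. -/
def Special (K : IntermediateField ℚ ℂ) : Set (ℂ → ℤ) :=
  {o | (∃ a ∈ K, ∀ c, c ≠ a → o c = 0) ∨
    ∃ a b, a + b ∈ K ∧ a * b ∈ K ∧ o a + o b = 0 ∧ ∀ c, c ≠ a → c ≠ b → o c = 0}

theorem sigma_pair {K' : IntermediateField ℚ Qbar} {a b : Qbar} (hab : a ≠ b)
    (h : a + b ∉ K' ∨ a * b ∉ K') : ∃ σ : Qbar →+* Qbar, (∀ y ∈ K', σ y = y) ∧
      ((σ a ≠ a ∧ σ a ≠ b) ∨ (σ b ≠ a ∧ σ b ≠ b)) := by
  have key : ∀ σ : Qbar →+* Qbar, (σ (a + b) ≠ a + b ∨ σ (a * b) ≠ a * b) →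
      ((σ a ≠ a ∧ σ a ≠ b) ∨ (σ b ≠ a ∧ σ b ≠ b)) := by
    intro σ hσ
    by_contra hcon
    rw [not_or, not_and_or, not_and_or, not_not, not_not, not_not, not_not] at hcon
    have hne : σ a ≠ σ b := fun h => hab (σ.injective h)
    rw [map_add, map_mul] at hσ
    rcases hcon with ⟨h1 | h1, h2 | h2⟩
    · exact hne (h1.trans h2.symm)
    · rw [h1, h2] at hσ
      rcases hσ with h | h <;> exact h rfl
    · rw [h1, h2] at hσ
      rcases hσ with h | h
      · exact h (add_comm _ _)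
      · exact h (mul_comm _ _)
    · exact hne (h1.trans h2.symm)
  rcases h with h | h
  · obtain ⟨σ, h1, h2⟩ := exists_sigma K' h
    exact ⟨σ, h1, key σ (Or.inl h2)⟩
  · obtain ⟨σ, h1, h2⟩ := exists_sigma K' h
    exact ⟨σ, h1, key σ (Or.inr h2)⟩

/-- **Products of powers of linear functions in a group of finite rank.** -/
theorem field_multi_finite (Γ : Subgroup Qbarˣ) (hΓ : Γ.FG) (K : IntermediateField ℚ ℂ)
    [FiniteDimensional ℚ K] (R : Finset ℂ) (hR : ∀ x ∈ R, IsAlgebraic ℚ x) :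
    {s : ℂ | s ∈ K ∧ (∀ a ∈ R, s ≠ a) ∧ ∃ μ : ℂ → ℤ, (∀ c, c ∉ R → μ c = 0) ∧ μ ∉ Special K ∧
      ∃ u ∈ DivHull Γ, ∏ a ∈ R, (s - a) ^ μ a = sg u}.Finite := by
  classical
  obtain ⟨R', hR'⟩ : ∃ R' : Finset Qbar, R'.image sg = R := by
    have h1 : ∀ x : R, ∃ y : Qbar, sg y = x := fun x => exists_sg (hR x x.2)
    choose y hy using h1
    refine ⟨Finset.univ.image y, ?_⟩
    ext x
    simp only [Finset.mem_image, Finset.mem_univ, true_and, exists_exists_eq_and]
    constructor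
    · rintro ⟨a, rfl⟩
      rw [hy]
      exact a.2
    · intro hx
      exact ⟨⟨x, hx⟩, hy _⟩
  let K' : IntermediateField ℚ Qbar := K.comap sgA
  have hfd : FiniteDimensional ℚ K' := comap_fin K
  have hK' : ∀ y : Qbar, y ∈ K' ↔ sg y ∈ K := fun y => Iff.rfl
  obtain ⟨Γ', hΓ', hmain⟩ := field_units_multi Γ hΓ K' R'
  have hmapfg : ∀ σ : Qbar →+* Qbar, (Γ' ⊔ Γ'.map (Units.map (σ : Qbar →* Qbar))).FG := by
    intro σ
    have h1 : (Γ'.map (Units.map (σ : Qbar →* Qbar))).FG := by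
      obtain ⟨g, hg⟩ := hΓ'
      refine ⟨g.image (Units.map (σ : Qbar →* Qbar)), ?_⟩
      rw [Finset.coe_image, ← MonoidHom.map_closure, hg]
    exact Subgroup.FG.sup hΓ' h1
  -- two linear functions
  have hF1 : (⋃ p ∈ R ×ˢ R, {s : ℂ | p.1 ≠ p.2 ∧ (∃ u ∈ DivHull Γ', s - p.1 = sg u) ∧
      ∃ u ∈ DivHull Γ', s - p.2 = sg u}).Finite := by
    refine (Finset.finite_toSet (R ×ˢ R)).biUnion fun p _ => ?_
    by_cases hp : p.1 = p.2
    · refine Set.finite_empty.subset ?_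
      rintro s ⟨h, -⟩
      exact h hp
    · refine (rat_finite Γ' hΓ' _ _ (indep_linear hp)).subset ?_
      rintro s ⟨-, ⟨u, hu, e1⟩, w, hw, e2⟩
      exact ⟨⟨u, hu, by rw [eval_linear, e1]⟩, w, hw, by rw [eval_linear, e2]⟩
  -- one linear function with a zero outside of the field
  have hF2 : (⋃ a ∈ R', {s : ℂ | a ∉ K' ∧ ∃ y ∈ K', s = sg y ∧
      ∃ w ∈ Γ', y - a = ((w : Qbarˣ) : Qbar)}).Finite := by
    refine (Finset.finite_toSet R').biUnion fun a _ => ?_
    by_cases ha : a ∉ K'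
    swap
    · refine Set.finite_empty.subset ?_
      rintro s ⟨h, -⟩
      exact ha h
    · obtain ⟨σ, hσ1, hσ2⟩ := exists_sigma K' ha
      have hσ3 : sg a ≠ sg (σ a) := fun h => hσ2 (sg_inj h).symm
      refine (rat_finite _ (hmapfg σ) _ _ (indep_linear hσ3)).subset ?_
      rintro s ⟨-, y, hy, rfl, w, hw, e⟩
      refine ⟨⟨w, sub_hull _ _ (Subgroup.mem_sup_left hw), ?_⟩, Units.map (σ : Qbar →* Qbar) w,
        sub_hull _ _ (Subgroup.mem_sup_right (Subgroup.mem_map_of_mem _ hw)), ?_⟩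
      · rw [eval_linear, ← e, map_sub]
      · rw [eval_linear]
        have h1 : ((Units.map (σ : Qbar →* Qbar) w : Qbarˣ) : Qbar) = y - σ a := by
          show σ ((w : Qbarˣ) : Qbar) = _
          rw [← e, map_sub, hσ1 y hy]
        rw [h1, map_sub]
  -- three points
  have hF3 : (⋃ p ∈ R ×ˢ (R ×ˢ R), {s : ℂ | (∀ a ∈ R, s ≠ a) ∧ p.1 ≠ p.2.1 ∧ p.1 ≠ p.2.2 ∧
      p.2.1 ≠ p.2.2 ∧ (∃ u ∈ DivHull Γ', (s - p.1) / (s - p.2.2) = sg u) ∧
      ∃ u ∈ DivHull Γ', (s - p.2.1) / (s - p.2.2) = sg u}).Finite := by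
    refine (Finset.finite_toSet _).biUnion fun p hp => ?_
    by_cases hp' : p.1 ≠ p.2.1 ∧ p.1 ≠ p.2.2 ∧ p.2.1 ≠ p.2.2
    swap
    · refine Set.finite_empty.subset ?_
      rintro s ⟨-, h1, h2, h3, -⟩
      exact hp' ⟨h1, h2, h3⟩
    · obtain ⟨h1, h2, h3⟩ := hp'
      refine (rat_finite Γ' hΓ' _ _ (indep_frac h2 h3 (Or.inl ⟨h1.symm, h3⟩))).subset ?_
      rintro s ⟨hsR, -, -, -, ⟨u, hu, e1⟩, w, hw, e2⟩
      have hpc : s ≠ p.2.2 := hsR _ (Finset.mem_product.1 (Finset.mem_product.1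
        (Finset.mem_coe.1 hp)).2).2
      exact ⟨⟨u, hu, by rw [eval_frac hpc, e1]⟩, w, hw, by rw [eval_frac hpc, e2]⟩
  -- two points which are not defined over the field
  have hF4 : (⋃ p ∈ R' ×ˢ R', {s : ℂ | p.1 ≠ p.2 ∧ (p.1 + p.2 ∉ K' ∨ p.1 * p.2 ∉ K') ∧
      ∃ y ∈ K', s = sg y ∧ y ≠ p.2 ∧ ∃ w ∈ Γ', (y - p.1) / (y - p.2) = ((w : Qbarˣ) : Qbar)}).Finite := by
    refine (Finset.finite_toSet _).biUnion fun p _ => ?_
    by_cases hp : p.1 ≠ p.2 ∧ (p.1 + p.2 ∉ K' ∨ p.1 * p.2 ∉ K')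
    swap
    · refine Set.finite_empty.subset ?_
      rintro s ⟨h1, h2, -⟩
      exact hp ⟨h1, h2⟩
    · obtain ⟨h1, h2⟩ := hp
      obtain ⟨σ, hσ1, hσ2⟩ := sigma_pair h1 h2
      have hne1 : sg p.1 ≠ sg p.2 := fun h => h1 (sg_inj h)
      have hne2 : sg (σ p.1) ≠ sg (σ p.2) := fun h => h1 (σ.injective (sg_inj h))
      have hne3 : (sg (σ p.1) ≠ sg p.1 ∧ sg (σ p.1) ≠ sg p.2) ∨
          (sg (σ p.2) ≠ sg p.1 ∧ sg (σ p.2) ≠ sg p.2) := by
        rcases hσ2 with ⟨h3, h4⟩ | ⟨h3, h4⟩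
        · exact Or.inl ⟨fun h => h3 (sg_inj h), fun h => h4 (sg_inj h)⟩
        · exact Or.inr ⟨fun h => h3 (sg_inj h), fun h => h4 (sg_inj h)⟩
      refine (rat_finite _ (hmapfg σ) _ _ (indep_frac hne1 hne2 hne3)).subset ?_
      rintro s ⟨-, -, y, hy, rfl, hyb, w, hw, e⟩
      have hyb' : sg y ≠ sg p.2 := fun h => hyb (sg_inj h)
      have hyσ : sg y ≠ sg (σ p.2) := by
        intro h
        have h5 : σ y = σ p.2 := by rw [hσ1 y hy, sg_inj h]
        exact hyb (σ.injective h5)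
      refine ⟨⟨w, sub_hull _ _ (Subgroup.mem_sup_left hw), ?_⟩, Units.map (σ : Qbar →* Qbar) w,
        sub_hull _ _ (Subgroup.mem_sup_right (Subgroup.mem_map_of_mem _ hw)), ?_⟩
      · rw [eval_frac hyb', ← e, map_div₀, map_sub, map_sub]
      · rw [eval_frac hyσ]
        have h5 : ((Units.map (σ : Qbar →* Qbar) w : Qbarˣ) : Qbar) =
            (y - σ p.1) / (y - σ p.2) := by
          show σ ((w : Qbarˣ) : Qbar) = _
          rw [← e, map_div₀, map_sub, map_sub, hσ1 y hy]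
        rw [h5, map_div₀, map_sub, map_sub]
  refine ((hF1.union hF2).union (hF3.union hF4)).subset ?_
  rintro s ⟨hs, hsR, μ, hμ0, hμS, u, hu, he⟩
  -- descend
  obtain ⟨y, rfl⟩ : ∃ y : Qbar, sg y = s := by
    have halg : IsAlgebraic ℚ s := by
      have h2 : IsAlgebraic ℚ (⟨s, hs⟩ : K) := Algebra.IsAlgebraic.isAlgebraic _
      exact h2.algebraMap
    exact exists_sg halg
  have hyK : y ∈ K' := hs
  have hyR : ∀ a ∈ R', y ≠ a := by
    rintro a ha rfl
    exact hsR (sg y) (by rw [← hR']; exact Finset.mem_image_of_mem _ ha) rfl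
  have he' : ∏ a ∈ R', (y - a) ^ μ (sg a) = (u : Qbar) := by
    apply sg_inj
    rw [← he, ← hR', Finset.prod_image (fun x _ y _ h => sg_inj h), map_prod]
    refine Finset.prod_congr rfl fun a _ => ?_
    rw [map_zpow₀, map_sub]
  obtain ⟨hm1, hm2⟩ := hmain y hyK hyR (fun a => μ (sg a)) u hu he'
  have hRmem : ∀ c, μ c ≠ 0 → ∃ c' ∈ R', sg c' = c := by
    intro c hc
    have h1 : c ∈ R := by
      by_contra h2
      exact hc (hμ0 c h2)
    rw [← hR'] at h1
    obtain ⟨c', hc', e⟩ := Finset.mem_image.1 h1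
    exact ⟨c', hc', e⟩
  have hsup : ∃ a, μ a ≠ 0 := by
    by_contra h
    push Not at h
    exact hμS (Or.inl ⟨0, K.zero_mem, fun c _ => h c⟩)
  obtain ⟨a, ha⟩ := hsup
  obtain ⟨a', ha', rfl⟩ := hRmem a ha
  by_cases hsum : ∑ a ∈ R', μ (sg a) = 0
  · -- the sum is zero: there is a second point
    obtain ⟨b, hb, hba⟩ : ∃ b ∈ R', μ (sg b) ≠ 0 ∧ b ≠ a' := by
      by_contra h
      push Not at h
      rw [Finset.sum_eq_single a' (fun b hb hba => by
        by_contra h3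
        exact hba (h b hb h3)) (fun h3 => absurd ha' h3)] at hsum
      exact ha hsum
    obtain ⟨hb1, hb2⟩ := hba
    have hab : sg a' ≠ sg b := fun h => hb2 (sg_inj h).symm
    by_cases h3 : ∃ c, μ c ≠ 0 ∧ c ≠ sg a' ∧ c ≠ sg b
    · obtain ⟨c, hc, hca, hcb⟩ := h3
      obtain ⟨c', hc', rfl⟩ := hRmem c hc
      refine Or.inr (Or.inl (Set.mem_biUnion (x := (sg a', sg b, sg c')) ?_ ⟨hsR, hab, hca.symm,
        hcb.symm, ?_, ?_⟩))
      · have hin : ∀ x ∈ R', sg x ∈ R := fun x hx => by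
          rw [← hR']; exact Finset.mem_image_of_mem _ hx
        exact Finset.mem_coe.2 (Finset.mk_mem_product (hin _ ha')
          (Finset.mk_mem_product (hin _ hb) (hin _ hc')))
      · obtain ⟨w, hw, e⟩ := hm2 a' ha' c' hc' ha hc
        exact ⟨w, sub_hull _ _ hw, by rw [← e, map_div₀, map_sub, map_sub]⟩
      · obtain ⟨w, hw, e⟩ := hm2 b hb c' hc' hb1 hc
        exact ⟨w, sub_hull _ _ hw, by rw [← e, map_div₀, map_sub, map_sub]⟩
    · push Not at h3
      have hother : ∀ c, c ≠ sg a' → c ≠ sg b → μ c = 0 := by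
        intro c hca hcb
        by_contra hc
        exact hcb (h3 c hc hca)
      have hsum2 : μ (sg a') + μ (sg b) = 0 := by
        rw [← hsum]
        have h4 : ∑ x ∈ R', μ (sg x) = ∑ x ∈ {a', b}, μ (sg x) := by
          symm
          refine Finset.sum_subset (fun x hx => ?_) (fun x _ hx => ?_)
          · rcases Finset.mem_insert.1 hx with rfl | hx
            · exact ha'
            · rw [Finset.mem_singleton.1 hx]
              exact hb
          · refine hother _ (fun h => hx ?_) (fun h => hx ?_)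
            · rw [sg_inj h]
              exact Finset.mem_insert_self _ _
            · rw [sg_inj h]
              exact Finset.mem_insert_of_mem (Finset.mem_singleton_self _)
        rw [h4, Finset.sum_pair hb2.symm]
      have hnK : a' + b ∉ K' ∨ a' * b ∉ K' := by
        by_contra h5
        rw [not_or, not_not, not_not] at h5
        refine hμS (Or.inr ⟨sg a', sg b, ?_, ?_, hsum2, hother⟩)
        · have h6 := h5.1
          rw [hK', map_add] at h6
          exact h6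
        · have h6 := h5.2
          rw [hK', map_mul] at h6
          exact h6
      refine Or.inr (Or.inr (Set.mem_biUnion (x := (a', b)) (Finset.mem_coe.2
        (Finset.mk_mem_product ha' hb)) ⟨hb2.symm, hnK, y, hyK, rfl, hyR b hb, ?_⟩))
      exact hm2 a' ha' b hb ha hb1
  · have hun := hm1 hsum
    by_cases h3 : ∃ c, μ c ≠ 0 ∧ c ≠ sg a'
    · obtain ⟨c, hc, hca⟩ := h3
      obtain ⟨c', hc', rfl⟩ := hRmem c hc
      refine Or.inl (Or.inl (Set.mem_biUnion (x := (sg a', sg c')) ?_ ⟨hca.symm, ?_, ?_⟩))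
      · have hin : ∀ x ∈ R', sg x ∈ R := fun x hx => by
          rw [← hR']; exact Finset.mem_image_of_mem _ hx
        exact Finset.mem_coe.2 (Finset.mk_mem_product (hin _ ha') (hin _ hc'))
      · obtain ⟨w, hw, e⟩ := hun a' ha' ha
        exact ⟨w, sub_hull _ _ hw, by rw [← e, map_sub]⟩
      · obtain ⟨w, hw, e⟩ := hun c' hc' hc
        exact ⟨w, sub_hull _ _ hw, by rw [← e, map_sub]⟩
    · push Not at h3
      refine Or.inl (Or.inr (Set.mem_biUnion (x := a') (Finset.mem_coe.2 ha') ⟨?_, y, hyK, rfl,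
        hun a' ha' ha⟩))
      intro haK
      refine hμS (Or.inl ⟨sg a', haK, fun c hca => ?_⟩)
      by_contra hc
      exact hca (h3 c hc)

end Pool.Agent.H594.KP
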