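import Mathlib
import Pool.Agent.H594.KP.Fin
import Pool.Agent.H594.KP.Dual

set_option autoImplicit false
set_option linter.unusedSectionVars false

/-!
# Values of independent rational functions at the elements of a number field
-/

namespace Pool.Agent.H594.KP

open Finset
open Pool.Agent.H594.ML
open Pool.Agent.Helper259.AbsHt Pool.Agent.Y215.SK Pool.Agent.Y215.AF
open Pool.Agent.H301R2.SSE (QB mem_QB Lt Lt_one Lt_mul Lt_alg Lt_log)

/-- the order of `A / B` at `a` -/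
noncomputable def ord (A B : Polynomial ℂ) (a : ℂ) : ℤ :=
  (A.rootMultiplicity a : ℤ) - (B.rootMultiplicity a : ℤ)

/-- the values of quotients of polynomials as products of linear factors -/
theorem eval_quot {k : ℕ} (A B : Fin k → Polynomial ℂ) (R : Finset ℂ)
    (hRA : ∀ j a, a ∈ (A j).roots → a ∈ R) (hRB : ∀ j a, a ∈ (B j).roots → a ∈ R)
    (m : Fin k → ℤ) (z : ℂ) (hz : ∀ a ∈ R, z ≠ a) :
    ∏ j, ((A j).eval z / (B j).eval z) ^ m j =
      (∏ j, ((A j).leadingCoeff / (B j).leadingCoeff) ^ m j) *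
        ∏ a ∈ R, (z - a) ^ (∑ j, m j * ord (A j) (B j) a) := by
  have h1 : ∀ j, (A j).eval z / (B j).eval z = ((A j).leadingCoeff / (B j).leadingCoeff) *
      ∏ a ∈ R, (z - a) ^ ord (A j) (B j) a := by
    intro j
    rw [eval_prod (A j) R (hRA j) z, eval_prod (B j) R (hRB j) z, mul_div_mul_comm,
      ← Finset.prod_div_distrib]
    congr 1
    refine Finset.prod_congr rfl fun a ha => ?_
    unfold ord
    rw [zpow_sub₀ (sub_ne_zero.2 (hz a ha)), zpow_natCast, zpow_natCast]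
  simp only [h1, mul_zpow, Finset.prod_mul_distrib]
  congr 1
  have h2 : ∀ j, (∏ a ∈ R, (z - a) ^ ord (A j) (B j) a) ^ m j =
      ∏ a ∈ R, (z - a) ^ (m j * ord (A j) (B j) a) := by
    intro j
    rw [← Finset.prod_zpow]
    refine Finset.prod_congr rfl fun a _ => ?_
    rw [mul_comm, zpow_mul]
  simp only [h2]
  rw [Finset.prod_comm]
  refine Finset.prod_congr rfl fun a ha => ?_
  rw [zpow_sum_g (sub_ne_zero.2 (hz a ha))]

/-- the values are multiplicatively independent modulo a group of finite rank -/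
theorem indep_field (Γ : Subgroup Qbarˣ) (hΓ : Γ.FG) (K : IntermediateField ℚ ℂ)
    [FiniteDimensional ℚ K] {k : ℕ} (A B : Fin k → Polynomial ℂ)
    (hA : ∀ j i, IsAlgebraic ℚ ((A j).coeff i)) (hB : ∀ j i, IsAlgebraic ℚ ((B j).coeff i))
    (hA0 : ∀ j, A j ≠ 0) (hB0 : ∀ j, B j ≠ 0)
    (hS : ∀ m : Fin k → ℤ, m ≠ 0 → (fun a => ∑ j, m j * ord (A j) (B j) a) ∉ Special K) :
    {z : ℂ | z ∈ K ∧ ¬ ((∀ j, (A j).eval z ≠ 0 ∧ (B j).eval z ≠ 0) ∧ ∀ m : Fin k → ℤ, m ≠ 0 →
      ¬ ∃ u ∈ DivHull Γ, ∏ j, ((A j).eval z / (B j).eval z) ^ m j = sg u)}.Finite := by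
  classical
  let R : Finset ℂ := (Finset.univ.biUnion fun j => (A j).roots.toFinset) ∪
    Finset.univ.biUnion fun j => (B j).roots.toFinset
  have hRA : ∀ j a, a ∈ (A j).roots → a ∈ R := fun j a ha =>
    Finset.mem_union_left _ (Finset.mem_biUnion.2 ⟨j, Finset.mem_univ j, Multiset.mem_toFinset.2 ha⟩)
  have hRB : ∀ j a, a ∈ (B j).roots → a ∈ R := fun j a ha =>
    Finset.mem_union_right _ (Finset.mem_biUnion.2 ⟨j, Finset.mem_univ j, Multiset.mem_toFinset.2 ha⟩)
  have hR : ∀ a ∈ R, IsAlgebraic ℚ a := by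
    intro a ha
    rcases Finset.mem_union.1 ha with h | h
    · obtain ⟨j, -, hj⟩ := Finset.mem_biUnion.1 h
      exact root_alg (hA j) (Multiset.mem_toFinset.1 hj)
    · obtain ⟨j, -, hj⟩ := Finset.mem_biUnion.1 h
      exact root_alg (hB j) (Multiset.mem_toFinset.1 hj)
  have hC : ∀ j, ∃ u : Qbarˣ, (A j).leadingCoeff / (B j).leadingCoeff = sg u := fun j =>
    exists_unit (by
      rw [div_eq_mul_inv]
      exact (hA j _).mul (hB j _).inv)
      (div_ne_zero (Polynomial.leadingCoeff_ne_zero.2 (hA0 j))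
        (Polynomial.leadingCoeff_ne_zero.2 (hB0 j)))
  choose C hC using hC
  let Γ2 : Subgroup Qbarˣ := Γ ⊔ Subgroup.closure (Set.range C)
  have hΓ2 : Γ2.FG := Subgroup.FG.sup hΓ
    ((Subgroup.fg_iff _).2 ⟨Set.range C, rfl, Set.finite_range C⟩)
  have hΓC : ∀ j, C j ∈ Γ2 := fun j =>
    Subgroup.mem_sup_right (Subgroup.subset_closure ⟨j, rfl⟩)
  refine ((field_multi_finite Γ2 hΓ2 K R hR).union R.finite_toSet).subset ?_
  rintro z ⟨hz, hno⟩
  by_contra hzF
  apply hno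
  have hzR : ∀ a ∈ R, z ≠ a := by
    rintro a ha rfl
    exact hzF (Or.inr (Finset.mem_coe.2 ha))
  refine ⟨fun j => ⟨fun h => ?_, fun h => ?_⟩, fun m hm => ?_⟩
  · exact hzR z (hRA j z ((Polynomial.mem_roots (hA0 j)).2 h)) rfl
  · exact hzR z (hRB j z ((Polynomial.mem_roots (hB0 j)).2 h)) rfl
  · rintro ⟨u, hu, he⟩
    refine hzF (Or.inl ⟨hz, hzR, fun a => ∑ j, m j * ord (A j) (B j) a, fun c hc => ?_,
      hS m hm, u * ∏ j, C j ^ (-m j), ?_, ?_⟩)
    · refine Finset.sum_eq_zero fun j _ => ?_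
      have h1 : (A j).rootMultiplicity c = 0 := by
        rw [Polynomial.rootMultiplicity_eq_zero_iff]
        intro h2
        exact absurd (hRA j c ((Polynomial.mem_roots (hA0 j)).2 h2)) hc
      have h3 : (B j).rootMultiplicity c = 0 := by
        rw [Polynomial.rootMultiplicity_eq_zero_iff]
        intro h2
        exact absurd (hRB j c ((Polynomial.mem_roots (hB0 j)).2 h2)) hc
      unfold ord
      rw [h1, h3]
      simp
    · obtain ⟨n, hn, hun⟩ := hu
      have h1 : u ∈ DivHull Γ2 := ⟨n, hn, Subgroup.mem_sup_left hun⟩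
      refine (divGroup Γ2).mul_mem h1 ?_
      exact (divGroup Γ2).prod_mem fun j _ => (divGroup Γ2).zpow_mem (sub_hull _ _ (hΓC j)) _
    · rw [eval_quot A B R hRA hRB m z hzR] at he
      have h2 : (∏ j, ((A j).leadingCoeff / (B j).leadingCoeff) ^ m j) ≠ 0 := by
        refine Finset.prod_ne_zero_iff.2 fun j _ => zpow_ne_zero _ ?_
        rw [hC]
        exact (map_ne_zero sg).2 (C j).ne_zero
      have h3 : ∏ a ∈ R, (z - a) ^ (∑ j, m j * ord (A j) (B j) a) =
          sg u * (∏ j, ((A j).leadingCoeff / (B j).leadingCoeff) ^ m j)⁻¹ := by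
        rw [← he]
        field_simp
      rw [h3, Units.val_mul, map_mul]
      congr 1
      rw [← Finset.prod_inv_distrib, Units.coe_prod, map_prod]
      refine Finset.prod_congr rfl fun j _ => ?_
      rw [Units.val_zpow_eq_zpow_val, map_zpow₀, zpow_neg, hC]

/-- the powers of the values -/
theorem values_field {r k : ℕ} (t : Fin r → ℂ) (D : ℕ) (w : Fin k → ℂ)
    (K : IntermediateField ℚ ℂ) [FiniteDimensional ℚ K] (A B : Fin k → Polynomial ℂ)
    (hA : ∀ j i, IsAlgebraic ℚ ((A j).coeff i)) (hB : ∀ j i, IsAlgebraic ℚ ((B j).coeff i))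
    (hA0 : ∀ j, A j ≠ 0) (hB0 : ∀ j, B j ≠ 0)
    (hS : ∀ m : Fin k → ℤ, m ≠ 0 → (fun a => ∑ j, m j * ord (A j) (B j) a) ∉ Special K) :
    {z : ℂ | z ∈ K ∧ ¬ ((∀ j, (A j).eval z ≠ 0 ∧ (B j).eval z ≠ 0) ∧ ∀ l : Fin k → ℂ,
      (∀ j, Complex.exp (l j) = (A j).eval z / (B j).eval z) →
      ∀ (A₀ Q : MvPolynomial (Fin r) QB) (A' : Fin k → MvPolynomial (Fin r) QB),
        (∀ i, A₀.degreeOf i ≤ D) → (∀ i, Q.degreeOf i ≤ D) → (∀ j i, (A' j).degreeOf i ≤ D) →
        MvPolynomial.aeval t Q ≠ 0 →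
        MvPolynomial.aeval t A₀ / MvPolynomial.aeval t Q +
          ∑ j, MvPolynomial.aeval t (A' j) / MvPolynomial.aeval t Q * (l j + w j) ∈ Lt →
        ∀ j, ∃ c : QB, MvPolynomial.aeval t (A' j) / MvPolynomial.aeval t Q = (c : ℂ))}.Finite := by
  obtain ⟨Γ, hΓ, hmain⟩ := powers_main t D w
  refine (indep_field Γ hΓ K A B hA hB hA0 hB0 hS).subset ?_
  rintro z ⟨hz, hno⟩
  refine ⟨hz, fun hind => hno ⟨hind.1, fun l hl => ?_⟩⟩
  have halg : ∀ j, IsAlgebraic ℚ ((A j).eval z / (B j).eval z) := by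
    intro j
    have hz' : IsAlgebraic ℚ z := by
      have h2 : IsAlgebraic ℚ (⟨z, hz⟩ : K) := Algebra.IsAlgebraic.isAlgebraic _
      exact h2.algebraMap
    have hev : ∀ P : Polynomial ℂ, (∀ i, IsAlgebraic ℚ (P.coeff i)) → IsAlgebraic ℚ (P.eval z) := by
      intro P hP
      rw [Polynomial.eval_eq_sum_range]
      exact Finset.sum_induction _ (IsAlgebraic ℚ) (fun a b ha hb => ha.add hb) isAlgebraic_zero
        fun i _ => (hP i).mul (hz'.pow i)
    rw [div_eq_mul_inv]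
    exact (hev _ (hA j)).mul (hev _ (hB j)).inv
  exact hmain _ halg hind.2 l hl

end Pool.Agent.H594.KP
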