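import Mathlib
import Pool.Agent.H594.KP.Val
import Pool.Graph.R_seed8.H340R2.LW

set_option autoImplicit false
set_option linter.unusedSectionVars false

/-!
# Families with infinitely many exceptional members
-/

namespace Pool.Agent.H594.KP

open Finset
open Pool.Agent.H594.ML
open Pool.Agent.Helper259.AbsHt Pool.Agent.Y215.SK Pool.Agent.Y215.AF
open Pool.Agent.H301R2.SSE (QB mem_QB Lt Lt_one Lt_mul Lt_alg Lt_log)

theorem transcendental_of_exp {L : ℂ} (hL : L ≠ 0) (h : IsAlgebraic ℚ (Complex.exp L)) :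
    Transcendental ℚ L := fun h1 =>
  Pool.Agent.H340R2.LW.transcendental_cexp L h1 hL h

/-- pigeonhole for integers modulo a positive integer -/
theorem exists_residue {S : Set ℂ} (hS : S.Infinite) (N : ℂ → ℤ) (G : ℤ) (hG : 0 < G) :
    ∃ ρ : ℤ, {z | z ∈ S ∧ N z % G = ρ}.Infinite := by
  by_contra h
  push Not at h
  have h1 : ∀ ρ : ℤ, {z | z ∈ S ∧ N z % G = ρ}.Finite := fun ρ => h ρ
  refine hS (((Set.finite_Ico (0 : ℤ) G).biUnion fun ρ _ => h1 ρ).subset ?_)
  intro z hz
  exact Set.mem_biUnion (x := N z % G) ⟨Int.emod_nonneg _ hG.ne', Int.emod_lt_of_pos _ hG⟩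
    ⟨hz, rfl⟩

theorem conv_core {k : ℕ} (S : Set ℂ) (hS : S.Infinite) (h : ℂ → Fin k → ℂ)
    (hh : ∀ z ∈ S, ∀ j, h z j ≠ 0) (m : Fin k → ℤ) (hm : m ≠ 0) (c θ : ℂ) (hc : c ≠ 0)
    (hθ : IsAlgebraic ℚ θ) (hθ0 : θ ≠ 0) (hθ1 : θ ≠ 1) (n : ℂ → ℤ)
    (he : ∀ z ∈ S, ∏ j, h z j ^ m j = c * θ ^ n z) :
    ∃ (t : ℂ) (w : Fin k → ℂ), Transcendental ℚ t ∧
      {z | z ∈ S ∧ ∃ l : Fin k → ℂ, (∀ j, Complex.exp (l j) = h z j) ∧
        ∑ j, (m j : ℂ) * t * (l j + w j) ∈ Lt}.Infinite := by
  classical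
  obtain ⟨L, hL⟩ : ∃ L, L = Complex.log θ := ⟨_, rfl⟩
  have hexpL : Complex.exp L = θ := by rw [hL, Complex.exp_log hθ0]
  have hL0 : L ≠ 0 := by
    intro h0
    rw [h0, Complex.exp_zero] at hexpL
    exact hθ1 hexpL.symm
  have hLt : Transcendental ℚ L := transcendental_of_exp hL0 (by rw [hexpL]; exact hθ)
  obtain ⟨j0, hj0⟩ : ∃ j0, m j0 ≠ 0 := by
    by_contra h0
    push Not at h0
    exact hm (funext h0)
  have hN : ∀ z, ∃ N : ℤ, z ∈ S → ∑ j, (m j : ℂ) * Complex.log (h z j) =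
      Complex.log c + n z * L + N * (2 * Real.pi * Complex.I) := by
    intro z
    by_cases hz : z ∈ S
    · have h1 : Complex.exp (∑ j, (m j : ℂ) * Complex.log (h z j)) =
          Complex.exp (Complex.log c + n z * L) := by
        rw [exp_comb, Complex.exp_add, Complex.exp_log hc, Complex.exp_int_mul, hexpL,
          ← he z hz]
        exact Finset.prod_congr rfl fun j _ => by rw [Complex.exp_log (hh z hz j)]
      obtain ⟨N, hN⟩ := Complex.exp_eq_exp_iff_exists_int.1 h1
      exact ⟨N, fun _ => hN⟩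
    · exact ⟨0, fun h => absurd h hz⟩
  choose N hN using hN
  have hG : (0 : ℤ) < |m j0| := abs_pos.2 hj0
  obtain ⟨ρ, hρ⟩ := exists_residue hS N _ hG
  refine ⟨L⁻¹, fun j => if j = j0 then -(Complex.log c + ρ * (2 * Real.pi * Complex.I)) / m j0
    else 0, fun h0 => hLt ?_, hρ.mono ?_⟩
  · have h1 := h0.inv
    rwa [inv_inv] at h1
  · rintro z ⟨hz, hzρ⟩
    refine ⟨hz, ?_⟩
    obtain ⟨κ, hκ⟩ : ∃ κ : ℤ, N z = ρ + m j0 * κ := by
      have h1 := Int.emod_add_mul_ediv (N z) |m j0|
      rw [hzρ] at h1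
      obtain ⟨κ, hκ⟩ : ∃ κ, κ = N z / |m j0| := ⟨_, rfl⟩
      rw [← hκ] at h1
      rcases abs_choice (m j0) with h2 | h2
      · rw [h2] at h1
        exact ⟨κ, h1.symm⟩
      · rw [h2] at h1
        exact ⟨-κ, by rw [← h1]; ring⟩
    refine ⟨fun j => Complex.log (h z j) + (if j = j0 then -(κ * (2 * Real.pi * Complex.I))
      else 0), fun j => ?_, ?_⟩
    · rw [Complex.exp_add, Complex.exp_log (hh z hz j)]
      split_ifs
      · have h1 : -((κ : ℂ) * (2 * Real.pi * Complex.I)) =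
            ((-κ : ℤ) : ℂ) * (2 * Real.pi * Complex.I) := by
          push_cast
          ring
        rw [h1, Complex.exp_int_mul_two_pi_mul_I, mul_one]
      · rw [Complex.exp_zero, mul_one]
    · have hj0' : (m j0 : ℂ) ≠ 0 := Int.cast_ne_zero.2 hj0
      have h1 : ∑ j, (m j : ℂ) * L⁻¹ * (Complex.log (h z j) + (if j = j0 then
          -(κ * (2 * Real.pi * Complex.I)) else 0) + (if j = j0 then
          -(Complex.log c + ρ * (2 * Real.pi * Complex.I)) / m j0 else 0)) = n z := by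
        have h2 : ∀ j, (m j : ℂ) * L⁻¹ * (Complex.log (h z j) + (if j = j0 then
            -(κ * (2 * Real.pi * Complex.I)) else 0) + (if j = j0 then
            -(Complex.log c + ρ * (2 * Real.pi * Complex.I)) / m j0 else 0)) =
            L⁻¹ * ((m j : ℂ) * Complex.log (h z j)) + (if j = j0 then L⁻¹ *
              (-(m j0 * κ * (2 * Real.pi * Complex.I)) -
                (Complex.log c + ρ * (2 * Real.pi * Complex.I))) else 0) := by
          intro j
          by_cases hj : j = j0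
          · subst hj
            simp only [if_true]
            field_simp
            ring
          · simp only [if_neg hj]
            ring
        simp only [h2]
        rw [Finset.sum_add_distrib, Finset.sum_ite_eq' Finset.univ j0, if_pos (Finset.mem_univ _),
          ← Finset.mul_sum, hN z hz, hκ]
        push_cast
        field_simp
        ring
      rw [h1]
      have h3 := Lt_mul (a := (n z : ℂ)) (isAlgebraic_intCast (n z)) Lt_one
      rwa [mul_one] at h3

end Pool.Agent.H594.KP
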