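import Mathlib
import Pool.Agent.H594.KP.Conv

set_option autoImplicit false
set_option linter.unusedSectionVars false

/-!
# Infinitely many special values
-/

namespace Pool.Agent.H594.KP

open Finset
open Pool.Agent.H594.ML
open Pool.Agent.Helper259.AbsHt Pool.Agent.Y215.SK Pool.Agent.Y215.AF
open Pool.Agent.H301R2.SSE (QB mem_QB Lt Lt_one Lt_mul Lt_alg Lt_log)

theorem mem_alg {K : IntermediateField ℚ ℂ} [FiniteDimensional ℚ K] {z : ℂ} (hz : z ∈ K) :
    IsAlgebraic ℚ z := by
  have h2 : IsAlgebraic ℚ (⟨z, hz⟩ : K) := Algebra.IsAlgebraic.isAlgebraic _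
  exact h2.algebraMap

/-- a number field contains finitely many roots of unity -/
theorem roots_of_unity_finite (F : IntermediateField ℚ ℂ) [FiniteDimensional ℚ F] :
    {x : ℂ | x ∈ F ∧ ∃ n : ℕ, 0 < n ∧ x ^ n = 1}.Finite := by
  have : NumberField F := { to_charZero := inferInstance, to_finiteDimensional := inferInstance }
  have h1 := NumberField.Embeddings.finite_of_norm_le F ℂ 1
  refine (h1.image (fun x : F => (x : ℂ))).subset ?_
  rintro x ⟨hx, n, hn, he⟩
  refine ⟨⟨x, hx⟩, ⟨?_, fun φ => ?_⟩, rfl⟩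
  · refine ⟨Polynomial.X ^ n - 1, Polynomial.monic_X_pow_sub_C (1 : ℤ) hn.ne', ?_⟩
    rw [Polynomial.eval₂_sub, Polynomial.eval₂_pow, Polynomial.eval₂_X, Polynomial.eval₂_one]
    have h2 : (⟨x, hx⟩ : F) ^ n = 1 := Subtype.ext he
    rw [h2, sub_self]
  · have h2 : (⟨x, hx⟩ : F) ^ n = 1 := Subtype.ext he
    have h3 : ‖φ ⟨x, hx⟩‖ ^ n = 1 := by
      rw [← norm_pow, ← map_pow, h2, map_one, norm_one]
    exact le_of_eq ((pow_eq_one_iff_of_nonneg (norm_nonneg _) hn.ne').1 h3)

theorem exists_family (K : IntermediateField ℚ ℂ) [FiniteDimensional ℚ K] {a b : ℂ}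
    (hab : a ≠ b) (h1 : a + b ∈ K) (h2 : a * b ∈ K) :
    ∃ θ : ℂ, IsAlgebraic ℚ θ ∧ θ ≠ 0 ∧ θ ≠ 1 ∧
      {z | z ∈ K ∧ z ≠ a ∧ z ≠ b ∧ ∃ n : ℤ, (z - a) / (z - b) = θ ^ n}.Infinite := by
  classical
  have halgK : ∀ z ∈ K, IsAlgebraic ℚ z := fun z hz => mem_alg hz
  -- `a` and `b` are algebraic
  have hroots : ∀ x, (x = a ∨ x = b) → IsAlgebraic ℚ x := by
    intro x hx
    let P : Polynomial ℂ := Polynomial.X ^ 2 - Polynomial.C (a + b) * Polynomial.X +
      Polynomial.C (a * b)
    have hP : P = (Polynomial.X - Polynomial.C a) * (Polynomial.X - Polynomial.C b) := by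
      simp only [P, Polynomial.C_add, Polynomial.C_mul]
      ring
    refine root_alg (p := P) (fun i => ?_) ?_
    · rw [← mem_algebraicClosure_iff]
      simp only [P, Polynomial.coeff_add, Polynomial.coeff_sub, Polynomial.coeff_X_pow,
        Polynomial.coeff_C_mul, Polynomial.coeff_X, Polynomial.coeff_C]
      refine add_mem (sub_mem ?_ (mul_mem (mem_algebraicClosure_iff.2 (halgK _ h1)) ?_)) ?_
      · split_ifs
        · exact one_mem _
        · exact zero_mem _
      · split_ifs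
        · exact one_mem _
        · exact zero_mem _
      · split_ifs
        · exact mem_algebraicClosure_iff.2 (halgK _ h2)
        · exact zero_mem _
    · rw [Polynomial.mem_roots (by
        rw [hP]
        exact mul_ne_zero (Polynomial.X_sub_C_ne_zero a) (Polynomial.X_sub_C_ne_zero b)), hP]
      rcases hx with rfl | rfl <;> simp [Polynomial.IsRoot.def]
  have haA := hroots a (Or.inl rfl)
  have hbA := hroots b (Or.inr rfl)
  -- a number field which contains everything
  obtain ⟨F, hF, hKF, haF, hbF⟩ : ∃ F : IntermediateField ℚ ℂ, FiniteDimensional ℚ F ∧ K ≤ F ∧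
      a ∈ F ∧ b ∈ F := by
    have hfa : FiniteDimensional ℚ (IntermediateField.adjoin ℚ {a}) :=
      IntermediateField.adjoin.finiteDimensional haA.isIntegral
    have hfb : FiniteDimensional ℚ (IntermediateField.adjoin ℚ {b}) :=
      IntermediateField.adjoin.finiteDimensional hbA.isIntegral
    have h3 : FiniteDimensional ℚ (K ⊔ IntermediateField.adjoin ℚ {a} : IntermediateField ℚ ℂ) :=
      IntermediateField.finiteDimensional_sup _ _
    refine ⟨(K ⊔ IntermediateField.adjoin ℚ {a}) ⊔ IntermediateField.adjoin ℚ {b},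
      IntermediateField.finiteDimensional_sup _ _, le_sup_left.trans le_sup_left,
      (le_sup_right.trans le_sup_left : IntermediateField.adjoin ℚ {a} ≤ _)
        (IntermediateField.mem_adjoin_simple_self ℚ a),
      (le_sup_right : IntermediateField.adjoin ℚ {b} ≤ _)
        (IntermediateField.mem_adjoin_simple_self ℚ b)⟩
  have hT := roots_of_unity_finite F
  -- choice of `q`
  obtain ⟨q, hqa, hqb, hq⟩ : ∃ q : ℕ, (q : ℂ) ≠ a ∧ (q : ℂ) ≠ b ∧
      ∀ n : ℕ, 0 < n → (((q : ℂ) - a) / ((q : ℂ) - b)) ^ n ≠ 1 := by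
    by_contra hcon
    push Not at hcon
    have hinf : {q : ℕ | (q : ℂ) ≠ a ∧ (q : ℂ) ≠ b}.Infinite := by
      have h3 : {q : ℕ | (q : ℂ) = a ∨ (q : ℂ) = b}.Finite := by
        refine Set.Finite.of_finite_image (f := fun n : ℕ => (n : ℂ))
          (((Set.finite_singleton a).union (Set.finite_singleton b)).subset ?_)
          (fun x _ y _ hxy => Nat.cast_injective hxy)
        rintro _ ⟨n, hn, rfl⟩
        exact hn
      refine (h3.infinite_compl).mono ?_
      intro q hq'
      have h4 : ¬ ((q : ℂ) = a ∨ (q : ℂ) = b) := hq'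
      exact not_or.1 h4
    refine hinf.image (f := fun q : ℕ => (((q : ℂ) - a) / ((q : ℂ) - b))) ?_ (hT.subset ?_)
    · rintro x ⟨hxa, hxb⟩ y ⟨hya, hyb⟩ hxy
      have e1 : (x : ℂ) - b ≠ 0 := sub_ne_zero.2 hxb
      have e2 : (y : ℂ) - b ≠ 0 := sub_ne_zero.2 hyb
      have h4 : ((x : ℂ) - a) / ((x : ℂ) - b) = ((y : ℂ) - a) / ((y : ℂ) - b) := hxy
      rw [div_eq_div_iff e1 e2] at h4
      have h5 : ((x : ℂ) - y) * (a - b) = 0 := by linear_combination h4
      rcases mul_eq_zero.1 h5 with h6 | h6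
      · exact Nat.cast_injective (sub_eq_zero.1 h6)
      · exact absurd (sub_eq_zero.1 h6) hab
    · rintro _ ⟨x, ⟨hxa, hxb⟩, rfl⟩
      obtain ⟨n, hn, he⟩ := hcon x hxa hxb
      exact ⟨F.div_mem (F.sub_mem (natCast_mem F x) haF) (F.sub_mem (natCast_mem F x) hbF),
        n, hn, he⟩
  have e1 : (q : ℂ) - a ≠ 0 := sub_ne_zero.2 hqa
  have e2 : (q : ℂ) - b ≠ 0 := sub_ne_zero.2 hqb
  -- the sequences
  have hseq : ∀ n : ℕ, ∃ p s : ℂ, p ∈ K ∧ s ∈ K ∧ ((q : ℂ) - a) ^ n = p + s * a ∧
      ((q : ℂ) - b) ^ n = p + s * b := by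
    intro n
    induction n with
    | zero => exact ⟨1, 0, K.one_mem, K.zero_mem, by simp, by simp⟩
    | succ n ih =>
      obtain ⟨p, s, hp, hs, e3, e4⟩ := ih
      refine ⟨q * p + s * (a * b), q * s - p - s * (a + b), ?_, ?_, ?_, ?_⟩
      · exact K.add_mem (K.mul_mem (natCast_mem K q) hp) (K.mul_mem hs h2)
      · exact K.sub_mem (K.sub_mem (K.mul_mem (natCast_mem K q) hs) hp) (K.mul_mem hs h1)
      · rw [pow_succ, e3]
        ring
      · rw [pow_succ, e4]
        ring
  choose p s hp hs e3 e4 using hseq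
  obtain ⟨θ, hθ⟩ : ∃ θ, θ = ((q : ℂ) - a) / ((q : ℂ) - b) := ⟨_, rfl⟩
  rw [← hθ] at hq
  have hθ0 : θ ≠ 0 := by rw [hθ]; exact div_ne_zero e1 e2
  have hs0 : ∀ n : ℕ, 0 < n → s n ≠ 0 := by
    intro n hn h0
    apply hq n hn
    rw [hθ, div_pow, e3, e4, h0, zero_mul, zero_mul, div_self]
    have h5 := pow_ne_zero n e2
    rw [e4, h0, zero_mul] at h5
    exact h5
  have hz : ∀ n : ℕ, 0 < n → (-(p n) / s n) - a = -((q : ℂ) - a) ^ n / s n ∧
      (-(p n) / s n) - b = -((q : ℂ) - b) ^ n / s n := by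
    intro n hn
    have h5 := hs0 n hn
    constructor
    · rw [e3]
      field_simp
      ring
    · rw [e4]
      field_simp
      ring
  have hratio : ∀ n : ℕ, 0 < n → ((-(p n) / s n) - a) / ((-(p n) / s n) - b) = θ ^ n := by
    intro n hn
    have h5 := hs0 n hn
    rw [(hz n hn).1, (hz n hn).2, hθ, div_pow]
    have h6 := pow_ne_zero n e2
    field_simp
  refine ⟨θ, ?_, hθ0, ?_, ?_⟩
  · rw [hθ, div_eq_mul_inv]
    exact ((isAlgebraic_natCast q).sub haA).mul ((isAlgebraic_natCast q).sub hbA).inv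
  · intro h5
    exact hq 1 one_pos (by rw [h5, one_pow])
  · refine Set.infinite_of_injective_forall_mem (f := fun n : ℕ => -(p (n + 1)) / s (n + 1)) ?_ ?_
    · intro x y hxy
      have h5 : -(p (x + 1)) / s (x + 1) = -(p (y + 1)) / s (y + 1) := hxy
      have h6 := hratio (x + 1) (Nat.succ_pos x)
      rw [h5, hratio (y + 1) (Nat.succ_pos y)] at h6
      by_contra hne
      rcases lt_or_gt_of_ne hne with h7 | h7
      · apply hq (y - x) (by omega)
        have h8 : θ ^ (y + 1) = θ ^ (x + 1) * θ ^ (y - x) := by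
          rw [← pow_add]
          congr 1
          omega
        rw [h8] at h6
        exact mul_left_cancel₀ (pow_ne_zero _ hθ0) (h6.trans (mul_one _).symm)
      · apply hq (x - y) (by omega)
        have h8 : θ ^ (x + 1) = θ ^ (y + 1) * θ ^ (x - y) := by
          rw [← pow_add]
          congr 1
          omega
        rw [h8] at h6
        exact (mul_left_cancel₀ (pow_ne_zero _ hθ0) ((mul_one _).trans h6)).symm
    · intro n
      have hn := Nat.succ_pos n
      have h5 := hs0 (n + 1) hn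
      refine ⟨K.div_mem (K.neg_mem (hp _)) (hs _), ?_, ?_, ((n + 1 : ℕ) : ℤ), ?_⟩
      · rw [← sub_ne_zero, (hz (n + 1) hn).1]
        exact div_ne_zero (neg_ne_zero.2 (pow_ne_zero _ e1)) h5
      · rw [← sub_ne_zero, (hz (n + 1) hn).2]
        exact div_ne_zero (neg_ne_zero.2 (pow_ne_zero _ e2)) h5
      · rw [zpow_natCast]
        exact hratio (n + 1) hn

end Pool.Agent.H594.KP
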